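import Mathlib

namespace Pool.Agent.Results.MP_1ee7a3_al.Exists

open Pointwise

/-- `H` is propermutable in `G`: some `T ≤ G` has `G = N_G(H) T` and `H K = K H` for all `K ≤ T`. -/
def Propermutable {G : Type} [Group G] (H : Subgroup G) : Prop :=
  ∃ T : Subgroup G, (Subgroup.normalizer (H : Set G) : Set G) * (T : Set G) = Set.univ ∧
    ∀ K : Subgroup G, K ≤ T → (H : Set G) * (K : Set G) = (K : Set G) * (H : Set G)

abbrev G := DihedralGroup 4 × Multiplicative (ZMod 4)

def a : G := (DihedralGroup.sr 0, 1)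
def t : G := (DihedralGroup.r 1, 1)
def b : G := (DihedralGroup.r 1, Multiplicative.ofAdd 1)

def A : Subgroup G where
  carrier := {x | x = 1 ∨ x = a}
  one_mem' := Or.inl rfl
  mul_mem' := by
    intro x y hx hy
    rcases hx with rfl | rfl <;> rcases hy with rfl | rfl <;> decide
  inv_mem' := by
    intro x hx
    rcases hx with rfl | rfl <;> decide

def par : DihedralGroup 4 → ZMod 2
  | .r i => (i.val : ZMod 2)
  | .sr i => (i.val : ZMod 2)

def B : Subgroup G where
  carrier := {x | par x.1 = ((Multiplicative.toAdd x.2).val : ZMod 2)}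
  one_mem' := by decide
  mul_mem' := by
    have h : ∀ x y : G, par x.1 = ((Multiplicative.toAdd x.2).val : ZMod 2) →
        par y.1 = ((Multiplicative.toAdd y.2).val : ZMod 2) →
        par (x * y).1 = ((Multiplicative.toAdd (x * y).2).val : ZMod 2) := by decide +kernel
    intro x y hx hy
    exact h x y hx hy
  inv_mem' := by
    have h : ∀ x : G, par x.1 = ((Multiplicative.toAdd x.2).val : ZMod 2) →
        par x⁻¹.1 = ((Multiplicative.toAdd x⁻¹.2).val : ZMod 2) := by decide +kernel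
    intro x hx
    exact h x hx

lemma memA (x : G) : x ∈ A ↔ x = 1 ∨ x = a := Iff.rfl
lemma memB (x : G) : x ∈ B ↔ par x.1 = ((Multiplicative.toAdd x.2).val : ZMod 2) := Iff.rfl

lemma norm_of_comm (x : G) (h : x * a = a * x) : x ∈ Subgroup.normalizer (A : Set G) := by
  rw [Subgroup.mem_normalizer_iff]
  intro y
  simp only [memA]
  have h1 : x * a * x⁻¹ = a := by rw [h]; group
  constructor
  · rintro (rfl | rfl)
    · left; group
    · right; exact h1
  · rintro (h2 | h2)
    · left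
      have : y = x⁻¹ * (x * y * x⁻¹) * x := by group
      rw [this, h2]; group
    · right
      have : y = x⁻¹ * (x * y * x⁻¹) * x := by group
      rw [this, h2, mul_assoc, ← h]; group

lemma propG : Propermutable A := by
  refine ⟨Subgroup.zpowers t, ?_, ?_⟩
  · apply Set.eq_univ_of_forall
    intro x
    have h : ∀ x : G, x * a = a * x ∨ (x * t⁻¹) * a = a * (x * t⁻¹) := by decide +kernel
    rcases h x with h | h
    · exact ⟨x, norm_of_comm x h, 1, Subgroup.one_mem _, by simp⟩
    · exact ⟨x * t⁻¹, norm_of_comm _ h, t, Subgroup.mem_zpowers t, by simp⟩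
  · intro K hK
    have hinv : ∀ k ∈ K, a * k = k⁻¹ * a := by
      intro k hk
      obtain ⟨n, rfl⟩ := hK hk
      have h1 : a * t * a⁻¹ = t⁻¹ := by decide
      have h2 : a * t ^ n * a⁻¹ = (t ^ n)⁻¹ := by
        rw [← conj_zpow, h1, inv_zpow]
      show a * t ^ n = (t ^ n)⁻¹ * a
      rw [← h2]; group
    ext x
    constructor
    · rintro ⟨u, hu, k, hk, rfl⟩
      rcases (memA u).1 hu with rfl | rfl
      · exact ⟨k, hk, 1, A.one_mem, by simp⟩
      · exact ⟨k⁻¹, K.inv_mem hk, a, Or.inr rfl, (hinv k hk).symm⟩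
    · rintro ⟨k, hk, u, hu, rfl⟩
      rcases (memA u).1 hu with rfl | rfl
      · exact ⟨1, A.one_mem, k, hk, by simp⟩
      · refine ⟨a, Or.inr rfl, k⁻¹, K.inv_mem hk, ?_⟩
        have := hinv k⁻¹ (K.inv_mem hk)
        simpa using this

lemma notB : ¬ Propermutable (A.subgroupOf B) := by
  rintro ⟨T, hT, hK⟩
  have hb : b ∈ B := by rw [memB]; decide
  have ha : a ∈ B := by rw [memB]; decide
  have : (⟨b, hb⟩ : B) ∈ (Set.univ : Set B) := trivial
  rw [← hT] at this
  obtain ⟨n, hn, x, hx, hnx⟩ := this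
  have hn' : (n : G) * a * (n : G)⁻¹ = 1 ∨ (n : G) * a * (n : G)⁻¹ = a := by
    have := (Subgroup.mem_normalizer_iff.1 hn ⟨a, ha⟩).1 (Or.inr rfl)
    exact this
  have hnx' : (n : G) * (x : G) = b := congrArg Subtype.val hnx
  have hx' : (x : G) = (n : G)⁻¹ * b := by rw [← hnx']; group
  have h1 := hK (Subgroup.zpowers x) ((Subgroup.zpowers_le).2 hx)
  have h2 : (⟨a, ha⟩ : B) * x ∈ ((A.subgroupOf B : Subgroup B) : Set B) *
      ((Subgroup.zpowers x : Subgroup B) : Set B) :=
    ⟨⟨a, ha⟩, Or.inr rfl, x, Subgroup.mem_zpowers x, rfl⟩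
  rw [h1] at h2
  obtain ⟨k, ⟨m, rfl⟩, u, hu, hku⟩ := h2
  have hu' : (u : G) = 1 ∨ (u : G) = a := hu
  have hku' : (x : G) ^ m * (u : G) = a * (x : G) := by
    have := congrArg Subtype.val hku
    simpa using this
  have h4 : ∀ y : G, y ^ 4 = 1 := by decide +kernel
  have hm : (x : G) ^ m = (x : G) ^ (m % 4).toNat := by
    have e : m = 4 * (m / 4) + ((m % 4).toNat : ℤ) := by omega
    conv_lhs => rw [e]
    rw [zpow_add, zpow_mul, zpow_natCast]
    have : (x : G) ^ (4 : ℤ) = 1 := by exact_mod_cast h4 x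
    rw [this]; simp
  have hlt : (m % 4).toNat < 4 := by omega
  rw [hm, hx'] at hku'
  have key : ∀ n : G, par n.1 = ((Multiplicative.toAdd n.2).val : ZMod 2) →
      (n * a * n⁻¹ = 1 ∨ n * a * n⁻¹ = a) → ∀ j : Fin 4,
      (n⁻¹ * b) ^ (j : ℕ) * 1 ≠ a * (n⁻¹ * b) ∧ (n⁻¹ * b) ^ (j : ℕ) * a ≠ a * (n⁻¹ * b) := by
    decide +kernel
  have := key n n.2 hn' ⟨_, hlt⟩
  rcases hu' with h | h
  · rw [h] at hku'; exact this.1 hku'
  · rw [h] at hku'; exact this.2 hku'

theorem result : ∃ (G : Type) (_ : Group G) (_ : Finite G) (A B : Subgroup G),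
    A ≤ B ∧ Propermutable A ∧ ¬ Propermutable (A.subgroupOf B) := by
  refine ⟨G, inferInstance, inferInstance, A, B, ?_, propG, notB⟩
  intro x hx
  rcases (memA x).1 hx with rfl | rfl <;> (rw [memB]; decide)

end Pool.Agent.Results.MP_1ee7a3_al.Exists
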